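import Pool.Agent.helper12.P3.RealCycle
import Pool.Agent.helper17.P3.SymCoord
import Pool.Agent.helper18.P3.SymMul
import Pool.Agent.helper26.P3.DiscMap
import Pool.Agent.helper36.P3.Places
import Pool.Agent.helper39.P3.WBasic
import Pool.Agent.helper45.P3.Var
import Pool.Agent.helper52.P3.SymExp
import Pool.Agent.helper56.P3.Chain
import Pool.Agent.helper69.P3.C1
import Pool.Agent.helper85.P3.DiscExists
import Pool.Agent.helper88.P3.UnitArg
import Pool.Agent.helper95.P3.ClassifyA
import Pool.Agent.helper95.P3.ClassifyB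
import Pool.Agent.helper56.P3.Util

/-!
# P3, module Lg: mixed ends with `t = -2 ε`
-/

namespace Pool.Agent.helper56.P3

open Finset Pool.Agent.helper56.Per

section LgAlg

/-- shift invariance of products over a period -/
private theorem prod_shift_many {K : Type*} [Field K] {n : ℕ} {f : ℕ → K}
    (hf : ∀ i, f (i + n) = f i) (i0 : ℕ) :
    ∏ i ∈ range n, f (i0 + i) = ∏ i ∈ range n, f i := by
  induction i0 with
  | zero => simp
  | succ a ih =>
    rw [← ih, ← prod_shift (fun i => f (a + i)) n (by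
      have := hf (a + 0)
      rw [← this, add_zero])]
    refine prod_congr rfl fun i _ => ?_
    congr 1
    ring

/-- a product over blocks -/
private theorem prod_blocks {K : Type*} [Field K] (q p : ℕ) (f : ℕ → K) :
    ∏ j ∈ range p, ∏ l ∈ range q, f (q * j + l) = ∏ i ∈ range (q * p), f i := by
  induction p with
  | zero => simp
  | succ a ih =>
    rw [prod_range_succ, ih, Nat.mul_succ, prod_range_add]

/-- telescoping quotient -/
private theorem prod_quot {K : Type*} [Field K] (p : ℕ) (D : ℕ → K) (hD : ∀ j, D j ≠ 0)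
    (hper : D p = D 0) : ∏ j ∈ range p, (D j / D (j + 1)) = 1 := by
  rw [prod_div_distrib, prod_shift D p hper]
  exact div_self (prod_ne_zero_iff.2 fun i _ => hD i)

variable {K : Type*} [Field K] {b c : K} {n : ℕ} {lam : K} {W : ℕ → K}

/-- the product of the block multipliers -/
private theorem prod_M (h : WCyc b c n lam W) {q p : ℕ} (hn : n = q * p) (i0 : ℕ) :
    ∏ j ∈ range p, ((∏ l ∈ range q, (1 - (W (i0 + q * j + l) ^ 2)⁻¹)) * b⁻¹ ^ q
      * ((c * W (i0 + q * j + 0) - 1) / (c * W (i0 + q * j + q) - 1))) = lam := by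
  have hb := h.b0
  rw [prod_mul_distrib, prod_mul_distrib, prod_const, card_range]
  have e1 : ∏ j ∈ range p, ∏ l ∈ range q, (1 - (W (i0 + q * j + l) ^ 2)⁻¹) = lam * b ^ n := by
    rw [← h.lam_prod, ← prod_shift_many (f := fun i => 1 - (W i ^ 2)⁻¹)
      (fun i => by simp only [h.per i]) i0, hn, ← prod_blocks]
    refine prod_congr rfl fun j _ => prod_congr rfl fun l _ => ?_
    rw [add_assoc]
  have e2 : ∏ j ∈ range p, ((c * W (i0 + q * j + 0) - 1) / (c * W (i0 + q * j + q) - 1)) = 1 := by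
    refine Eq.trans ?_ (prod_quot p (fun j => c * W (i0 + q * j) - 1)
      (fun j => sub_ne_zero.2 (h.ne1 _)) (by
      have := h.per i0
      rw [hn] at this
      simp only [this, mul_zero, add_zero]))
    refine prod_congr rfl fun j _ => ?_
    rw [add_zero, Nat.mul_succ, ← add_assoc i0]
  rw [e1, e2, mul_one, ← pow_mul, ← hn, mul_assoc, ← mul_pow, mul_inv_cancel₀ hb, one_pow, mul_one]

/-- the symmetric coordinate is close to the original one for small `τ` -/
private theorem yc_near {Γ : Type*} [LinearOrderedCommGroupWithZero Γ] {v : Valuation K Γ}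
    {τ w : K} (hτ : v τ < 1) (hw : v w ≤ 1) : v (yc τ w - w) < 1 := by
  have h1 : v (τ * w) < 1 := by
    rw [map_mul]; exact lt1_of_lt_of_le hτ hw
  have h2 : v (1 - τ * w) = 1 := by
    rw [Valuation.map_sub_eq_of_lt_left v (by rwa [map_one]), map_one]
  have h3 : 1 - τ * w ≠ 0 := ne_zero_of_v_one h2
  have e : yc τ w - w = τ * (w ^ 2 - 1) / (1 - τ * w) := by
    unfold yc
    rw [div_sub' h3]
    congr 1
    ring
  rw [e, map_div₀, h2, div_one, map_mul]
  refine lt1_of_lt_of_le hτ ?_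
  refine v.map_sub_le ?_ (by rw [map_one])
  rw [map_pow]
  exact pow_le_one' hw 2

end LgAlg

section LgReal

variable {k : Type*} [Field k] [CharZero k] [Algebra.IsAlgebraic ℚ k]

omit [Algebra.IsAlgebraic ℚ k] in
private theorem real_data {p : ℕ} (hp : 0 < p) {x e : ℕ → k} (x0 : ∀ j, x j ≠ 0)
    (xs : ∀ j, x (j + 1) = x j + (x j)⁻¹ - 2) (xp : ∀ j, x (j + p) = x j)
    (ep : ∀ j, e (j + p) = e j)
    (es : ∀ j, (1 + x j) ^ 2 * e (j + 1) = (x j ^ 2 - 1) * e j + 1) (σ : k →+* ℂ) :
    ∃ r s : ℕ → ℝ, (∀ j, 0 < r j ∧ σ (x j) = r j) ∧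
      (∀ j, 0 < s j ∧ s j < 1 ∧ σ (e j) = s j) := by
  have h1 : ∀ j, ∃ r : ℝ, 0 < r ∧ σ (x j) = r := fun j =>
    real_cycle (x := fun j => σ (x j)) hp (fun j => (_root_.map_ne_zero σ).2 (x0 j))
      (fun j => by simp only [xs, map_sub, map_add, map_inv₀, map_ofNat])
      (fun j => by simp only [xp]) j
  have h2 : ∀ j, ∃ r : ℝ, 0 < r ∧ r < 1 ∧ σ (e j) = r := fun j =>
    e_bounds (y := fun j => σ (x j)) (e := fun j => σ (e j)) hp h1 (fun j => by simp only [xp])
      (fun j => by simp only [ep])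
      (fun j => by
        have := congrArg σ (es j)
        simpa only [map_mul, map_add, map_sub, map_pow, map_one] using this) j
  choose r hr using h1
  choose s hs using h2
  exact ⟨r, s, hr, hs⟩

/-- the algebra of the second order term -/
private theorem real_part {q p : ℕ} (hq : 2 ≤ q) (hp : 0 < p) {x : ℕ → k} (x0 : ∀ j, x j ≠ 0)
    (x1 : ∀ j, x j ^ 2 ≠ 1) (xs : ∀ j, x (j + 1) = x j + (x j)⁻¹ - 2)
    (xp : ∀ j, x (j + p) = x j) :
    ∃ (e : ℕ → k) (η : k), (∀ j, e (j + p) = e j) ∧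
      (∀ j, (1 + x j) ^ 2 * e (j + 1) = (x j ^ 2 - 1) * e j + 1) ∧
      (∑ j ∈ range p, e j / x j ≠ 0) ∧
      (η * (∑ j ∈ range p, (-2 * e j / x j))
        + ∑ j ∈ range p, (-2 * e (j + 1) / x (j + 1)) * hfun q (-2) (x j + (x j)⁻¹)
        + ∑ j ∈ range p, ((x j ^ 2)⁻¹ + ((q : k) ^ 2 + 2) / 3) = 0) ∧
      ((∀ σ : k →+* ℂ, ∃ r : ℝ, 1 < r ∧ σ (η + ((q : k) ^ 2 - 7) / 3 - 1) = r) ∨
        (q = 2 ∧ (∀ j, x j = 1 / 2) ∧ η + ((q : k) ^ 2 - 7) / 3 - 1 = 1)) := by
  obtain ⟨⟨e, ep, es⟩, -⟩ := e_exists hp x0 x1 xs xp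
  have hpos : ∀ σ : k →+* ℂ, ∃ r s : ℕ → ℝ, (∀ j, 0 < r j ∧ σ (x j) = r j) ∧
      (∀ j, 0 < s j ∧ s j < 1 ∧ σ (e j) = s j) := real_data hp x0 xs xp ep es
  have hne : (range p).Nonempty := ⟨0, mem_range.2 hp⟩
  obtain ⟨σ0⟩ : Nonempty (k →+* ℂ) := ⟨(IsAlgClosed.lift : k →ₐ[ℚ] ℂ).toRingHom⟩
  have hA : ∑ j ∈ range p, e j / x j ≠ 0 := by
    obtain ⟨r, s, hr, hs⟩ := hpos σ0
    intro h0
    have h1 : σ0 (∑ j ∈ range p, e j / x j) = ((∑ j ∈ range p, s j / r j : ℝ) : ℂ) := by
      rw [map_sum, Complex.ofReal_sum]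
      refine sum_congr rfl fun j _ => ?_
      rw [map_div₀, (hr j).2, (hs j).2.2, Complex.ofReal_div]
    rw [h0, map_zero] at h1
    have h2 : (∑ j ∈ range p, s j / r j : ℝ) = 0 := by exact_mod_cast h1.symm
    exact (sum_pos (fun j _ => div_pos (hs j).1 (hr j).1) hne).ne' h2
  have hA' : ∑ j ∈ range p, (-2 * e j / x j) ≠ 0 := by
    have : ∑ j ∈ range p, (-2 * e j / x j) = -2 * ∑ j ∈ range p, e j / x j := by
      rw [mul_sum]
      exact sum_congr rfl fun j _ => by ring
    rw [this]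
    exact mul_ne_zero (by norm_num) hA
  obtain ⟨η, hη⟩ : ∃ η : k, η * (∑ j ∈ range p, (-2 * e j / x j))
        + ∑ j ∈ range p, (-2 * e (j + 1) / x (j + 1)) * hfun q (-2) (x j + (x j)⁻¹)
        + ∑ j ∈ range p, ((x j ^ 2)⁻¹ + ((q : k) ^ 2 + 2) / 3) = 0 := by
    refine ⟨-(∑ j ∈ range p, (-2 * e (j + 1) / x (j + 1)) * hfun q (-2) (x j + (x j)⁻¹)
        + ∑ j ∈ range p, ((x j ^ 2)⁻¹ + ((q : k) ^ 2 + 2) / 3))
        / (∑ j ∈ range p, (-2 * e j / x j)), ?_⟩
    rw [div_mul_cancel₀ _ hA']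
    ring
  refine ⟨e, η, ep, es, hA, hη, ?_⟩
  obtain ⟨a1, a2, a3⟩ := L_alg (q := q) x0 xs xp ep es hη
  obtain ⟨w, hw⟩ : ∃ w : k, w = η + ((q : k) ^ 2 - 7) / 3 - 1 := ⟨_, rfl⟩
  rw [← hw] at a1 ⊢
  have key : (w - 1 - ((q : k) ^ 2 - 4) / 12) * (∑ j ∈ range p, e j / x j)
      = 2 * ∑ j ∈ range p, (1 - e j) * (2 * x j - 1) ^ 2 / (4 * x j) := by
    have h3 : ∑ j ∈ range p, ((1 - e j) * x j - 1 + 2 * e j)
        = ∑ j ∈ range p, (1 - e j) * x j - ∑ j ∈ range p, (1 - 2 * e j) := by
      rw [← sum_sub_distrib]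
      exact sum_congr rfl fun j _ => by ring
    rw [← a3, h3, a2]
    linear_combination 2 * a1
  by_cases hall : q = 2 ∧ ∀ j, x j = 1 / 2
  · right
    refine ⟨hall.1, hall.2, ?_⟩
    have h4 : ∑ j ∈ range p, (1 - e j) * (2 * x j - 1) ^ 2 / (4 * x j) = 0 := by
      refine sum_eq_zero fun j _ => ?_
      rw [hall.2 j]
      norm_num
    rw [h4, hall.1, mul_zero] at key
    rcases mul_eq_zero.1 key with h5 | h5
    · push_cast at h5
      norm_num at h5
      exact sub_eq_zero.1 h5
    · exact absurd h5 hA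
  · left
    intro σ
    obtain ⟨r, s, hr, hs⟩ := hpos σ
    have hApos : 0 < ∑ j ∈ range p, s j / r j :=
      sum_pos (fun j _ => div_pos (hs j).1 (hr j).1) hne
    have hD0 : ∀ j, 0 ≤ (1 - s j) * (2 * r j - 1) ^ 2 / (4 * r j) := fun j =>
      div_nonneg (mul_nonneg (sub_nonneg.2 (hs j).2.1.le) (sq_nonneg _))
        (mul_nonneg (by norm_num) (hr j).1.le)
    refine ⟨1 + ((q : ℝ) ^ 2 - 4) / 12 + 2 * (∑ j ∈ range p, (1 - s j) * (2 * r j - 1) ^ 2
      / (4 * r j)) / (∑ j ∈ range p, s j / r j), ?_, ?_⟩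
    · have hq' : (2 : ℝ) ≤ q := by exact_mod_cast hq
      by_cases hq2 : q = 2
      · have hex : ∃ j, x j ≠ 1 / 2 := by
          by_contra hcon
          push Not at hcon
          exact hall ⟨hq2, hcon⟩
        obtain ⟨j, hj⟩ := hex
        have hjm : x (j % p) = x j := (Function.Periodic.map_mod_nat (f := x) xp j)
        have hD : 0 < ∑ j ∈ range p, (1 - s j) * (2 * r j - 1) ^ 2 / (4 * r j) := by
          refine sum_pos' (fun j _ => hD0 j) ⟨j % p, mem_range.2 (Nat.mod_lt _ hp), ?_⟩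
          have h6 : (2 * r (j % p) - 1) ≠ 0 := by
            intro h7
            apply hj
            apply σ.injective
            rw [← hjm, (hr _).2, map_div₀, map_one, map_ofNat]
            have : r (j % p) = 1 / 2 := by linarith
            rw [this]
            norm_num
          exact div_pos (mul_pos (sub_pos.2 (hs _).2.1) (by positivity))
            (mul_pos (by norm_num) (hr _).1)
        have h8 := div_pos (mul_pos (zero_lt_two' ℝ) hD) hApos
        rw [hq2]
        push_cast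
        nlinarith [h8]
      · have hq3 : (3 : ℝ) ≤ q := by
          have : 3 ≤ q := by omega
          exact_mod_cast this
        have h8 : 0 ≤ 2 * (∑ j ∈ range p, (1 - s j) * (2 * r j - 1) ^ 2
            / (4 * r j)) / (∑ j ∈ range p, s j / r j) :=
          div_nonneg (mul_nonneg (by norm_num) (sum_nonneg fun j _ => hD0 j)) hApos.le
        nlinarith [h8]
    · have hk := congrArg σ key
      have e1 : σ (∑ j ∈ range p, e j / x j) = ((∑ j ∈ range p, s j / r j : ℝ) : ℂ) := by
        rw [map_sum, Complex.ofReal_sum]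
        refine sum_congr rfl fun j _ => ?_
        rw [map_div₀, (hr j).2, (hs j).2.2, Complex.ofReal_div]
      have e2 : σ (∑ j ∈ range p, (1 - e j) * (2 * x j - 1) ^ 2 / (4 * x j))
          = ((∑ j ∈ range p, (1 - s j) * (2 * r j - 1) ^ 2 / (4 * r j) : ℝ) : ℂ) := by
        rw [map_sum, Complex.ofReal_sum]
        refine sum_congr rfl fun j _ => ?_
        simp only [map_div₀, map_mul, map_sub, map_pow, map_one, map_ofNat, (hr j).2, (hs j).2.2,
          Complex.ofReal_div, Complex.ofReal_mul, Complex.ofReal_sub, Complex.ofReal_pow,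
          Complex.ofReal_one, Complex.ofReal_ofNat]
      rw [map_mul, map_mul, e1, e2, map_sub, map_sub, map_div₀, map_sub, map_pow, map_one,
        map_ofNat, map_ofNat, map_natCast, map_ofNat] at hk
      have hA0 : ((∑ j ∈ range p, s j / r j : ℝ) : ℂ) ≠ 0 := by
        exact_mod_cast hApos.ne'
      have h9 : σ w = 1 + ((q : ℂ) ^ 2 - 4) / 12
          + 2 * ((∑ j ∈ range p, (1 - s j) * (2 * r j - 1) ^ 2 / (4 * r j) : ℝ) : ℂ)
            / ((∑ j ∈ range p, s j / r j : ℝ) : ℂ) := by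
        rw [← hk]
        field_simp
        ring
      rw [h9]
      push_cast
      rfl

end LgReal

section LgDisc

variable {k K : Type*} [Field k] [Field K] [Algebra k K] {P : ValuationSubring K}
  {b c τ β S : K} {m n q : ℕ}

private theorem Sym.v_c {Γ : Type*} [LinearOrderedCommGroupWithZero Γ] {v : Valuation K Γ}
    (hz : CharZ v) (hs : Sym v b c τ β S q) : v c = v τ := by
  have h1 : v (1 + τ ^ 2) = 1 := by
    rw [Valuation.map_add_eq_of_lt_left v (by
      rw [map_one, map_pow]; exact pow_lt_one₀ zero_le hs.vt two_ne_zero), map_one]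
  have h2 := congrArg v hs.ht
  have h3 : v (2 : K) = 1 := by exact_mod_cast hz 2 two_ne_zero
  rwa [map_mul, map_mul, h1, h3, mul_one, one_mul] at h2

private theorem cst_le (hP : IsPl k P) (α : k) : P.valuation (algebraMap k K α) ≤ 1 := by
  by_cases h : α = 0
  · rw [h, map_zero, map_zero]; exact zero_le_one
  · exact (hP.cst α h).le

private theorem disc_part [CharZero k] [Algebra.IsAlgebraic ℚ k] (hP : IsPl k P)
    (hc : Ctx P.valuation b c) (hr : Rot P.valuation b c q) (hs : Sym P.valuation b c τ β S q)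
    {lam' : k} {W' : ℕ → K} (h' : WCyc b c m (algebraMap k K lam') W') (l0' : lam' ≠ 0)
    (hII : TyII P.valuation W') (hS : P.valuation (S - algebraMap k K (-2)) < 1)
    (hT : P.valuation (TT b c q - algebraMap k K (-2)) < 1) {ζ : k}
    (hζ : P.valuation (b - algebraMap k K ζ) < 1) {η : k}
    (hη : P.valuation (S + 2 - τ ^ 2 * algebraMap k K η) < P.valuation τ ^ 2)
    (hw : η + ((q : k) ^ 2 - 7) / 3 - 1 ≠ 0) :
    ∃ ℓ, 0 < ℓ ∧ Hits (η + ((q : k) ^ 2 - 7) / 3 - 1) (-2) ℓ := by
  have hz : CharZ P.valuation := hP.charZ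
  obtain ⟨ε, hε, ⟨ℓ0, -, hH0⟩, hnear, -⟩ := near_II hP hc hr h' l0' hT hII
  have hH1 : Hits (1 : k) (-2) 1 :=
    ⟨fun j => if j = 0 then 1 else 0, by simp, by
      intro j hj
      obtain rfl : j = 0 := by omega
      norm_num, by simp⟩
  obtain ⟨rfl, -⟩ := hits_sign hε (one_pow 2) hH0 hH1
  have T : TwoCyc P.valuation b c q m (algebraMap k K lam') 1 W' :=
    { ctx := hc
      cz := hz
      rot := hr
      cyc := h'
      l1 := hP.cst _ l0'
      II := hII
      e2 := one_pow 2
      near := fun i h1 h2 => by simpa only [map_one] using hnear i h1 h2 }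
  obtain ⟨r, i0, D⟩ := disc_exists P.valuation hc hz hr h' (hP.cst _ l0') hII (one_pow 2) T.near
  have F := Disc.follow P.valuation T D
  have vτ := hs.vt
  have vc : P.valuation c = P.valuation τ := Sym.v_c hz hs
  have hV : ∀ l, crit b c 1 (l + 1)
      = (crit b c 1 l + (crit b c 1 l)⁻¹ + (b - 1 - c ^ 2) / c) / b := fun l => rfl
  have hV0 : crit b c 1 0 = (1 : K) := rfl
  -- the first return of the critical point
  have hVq1 : P.valuation (crit b c 1 q) < 1 := by
    have h1 := (central_orbit P.valuation hc hr (x := crit b c 1) (fun l _ => hV l)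
      (by rw [hV0, map_one])).2
    rw [hV0] at h1
    have e : crit b c 1 q = (crit b c 1 q - ((1 : K) + 1⁻¹ + TT b c q))
        + (TT b c q - algebraMap k K (-2)) := by
      rw [map_neg, map_ofNat]
      ring
    rw [e]
    exact P.valuation.map_add_lt h1 hT
  have hden : P.valuation (1 - τ * crit b c 1 q) = 1 := by
    rw [Valuation.map_sub_eq_of_lt_left _ (by
      rw [map_one, map_mul]; exact lt1_of_lt_of_le vτ hVq1.le), map_one]
  have hden0 : 1 - τ * crit b c 1 q ≠ 0 := ne_zero_of_v_one hden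
  have hy1 : P.valuation (yc τ (crit b c 1 q)
      - τ ^ 2 * algebraMap k K (η + ((q : k) ^ 2 - 7) / 3)) < P.valuation τ ^ 2 := by
    have h1 := L_exp hP hc hr hs hζ hS (x := crit b c 1) (w := 1) (fun l _ => hV l)
      (by rw [hV0, map_one, sub_self, map_zero]; exact zero_lt_one) one_ne_zero
    have h2 : yc τ (crit b c 1 0) = 1 := by
      have h3 : (1 : K) - τ ≠ 0 := by
        intro h4
        rw [← sub_eq_zero.1 h4, map_one] at vτ
        exact lt_irrefl _ vτ
      rw [hV0]
      unfold yc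
      rw [mul_one]
      exact div_self h3
    have h5 : hfun q (-2) (1 + (1 : k)⁻¹) = ((q : k) ^ 2 - 7) / 3 := by
      unfold hfun
      norm_num
      ring
    rw [h2, h5] at h1
    have e : yc τ (crit b c 1 q) - τ ^ 2 * algebraMap k K (η + ((q : k) ^ 2 - 7) / 3)
        = (yc τ (crit b c 1 q) - ((1 : K) + 1⁻¹ + S
          + τ ^ 2 * algebraMap k K (((q : k) ^ 2 - 7) / 3)))
          + (S + 2 - τ ^ 2 * algebraMap k K η) := by
      rw [map_add]
      ring
    rw [e]
    exact P.valuation.map_add_lt h1 hη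
  have hy2 : P.valuation (yc τ (crit b c 1 q)) < P.valuation τ := by
    have hτ0 : 0 < P.valuation τ := zero_lt_iff.2 ((P.valuation.ne_zero_iff).2 hs.t0)
    have h3 : P.valuation τ ^ 2 < P.valuation τ := by
      rw [pow_two]
      calc P.valuation τ * P.valuation τ < 1 * P.valuation τ :=
            mul_lt_mul_of_pos_right vτ hτ0
        _ = P.valuation τ := one_mul _
    have h4 : P.valuation (τ ^ 2 * algebraMap k K (η + ((q : k) ^ 2 - 7) / 3))
        ≤ P.valuation τ ^ 2 := by
      rw [map_mul, map_pow]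
      calc P.valuation τ ^ 2 * _ ≤ P.valuation τ ^ 2 * 1 := mul_le_mul_right (cst_le hP _) _
        _ = _ := mul_one _
    have e : yc τ (crit b c 1 q) = (yc τ (crit b c 1 q)
      - τ ^ 2 * algebraMap k K (η + ((q : k) ^ 2 - 7) / 3))
      + τ ^ 2 * algebraMap k K (η + ((q : k) ^ 2 - 7) / 3) := by ring
    rw [e]
    exact P.valuation.map_add_lt (hy1.trans h3) (h4.trans_lt h3)
  have hVq : P.valuation (crit b c 1 q) = P.valuation c := by
    rw [vc]
    apply v_eq_of_sub_lt
    have e : crit b c 1 q - τ = yc τ (crit b c 1 q) * (1 - τ * crit b c 1 q) := by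
      unfold yc
      rw [div_mul_cancel₀ _ hden0]
    rw [e, map_mul, hden, mul_one]
    exact hy2
  -- the hole
  have hc0 : 0 < P.valuation c := zero_lt_iff.2 ((P.valuation.ne_zero_iff).2 hc.c0)
  have hi : P.valuation (W' (i0 + q)) < 1 := by
    have e : W' (i0 + q) = crit b c 1 q - (crit b c 1 q - W' (i0 + q)) := by ring
    rw [e]
    exact P.valuation.map_sub_lt hVq1 ((F q).2.trans_lt (D.lt_one _))
  obtain ⟨hWc, s, hsq, hgap, hcW, -⟩ := h'.hole_next P.valuation hc hz hr hi
  have hcx : P.valuation (c / crit b c 1 q - (1 - b ^ s)) < 1 := by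
    have hVne : crit b c 1 q ≠ 0 := (F q).1
    have hWne : W' (i0 + q) ≠ 0 := h'.ne0 _
    have e : c / crit b c 1 q - (1 - b ^ s) = -(c * (crit b c 1 q - W' (i0 + q)))
        / (crit b c 1 q * W' (i0 + q)) + (c / W' (i0 + q) - (1 - b ^ s)) := by
      field_simp
      ring
    rw [e]
    refine P.valuation.map_add_lt ?_ hcW
    rw [map_div₀, Valuation.map_neg, map_mul, map_mul, hVq, hWc]
    have h6 : P.valuation (crit b c 1 q - W' (i0 + q)) < P.valuation c ^ 2 :=
      (F q).2.trans_lt (D.hole _ hi)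
    have h7 : P.valuation c * P.valuation (crit b c 1 q - W' (i0 + q))
        < P.valuation c * P.valuation c := by
      refine mul_lt_mul_of_pos_left (h6.trans ?_) hc0
      rw [pow_two]
      calc P.valuation c * P.valuation c < 1 * P.valuation c :=
            mul_lt_mul_of_pos_right hc.vc hc0
        _ = P.valuation c := one_mul _
    rw [div_lt_one₀ (mul_pos hc0 hc0)]
    exact h7
  obtain ⟨-, hhalf⟩ := L_half hP hc hr hs hS (x := fun l => crit b c 1 (q + l))
    (yh := η + ((q : k) ^ 2 - 7) / 3) hgap.1 hsq (fun l _ => rfl) hy1 hcx (fun l hl1 hl2 => by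
      have h8 := hgap.2.2 l hl1 hl2
      have h9 := (F (q + l)).2.trans_lt (D.lt_one _)
      rw [← add_assoc] at h9
      have h10 : P.valuation (crit b c 1 (q + l)) = P.valuation (W' (i0 + q + l)) :=
        v_eq_of_sub_lt (h9.trans h8)
      rw [h10]
      exact h8)
  have h11 : P.valuation (W' (i0 + (q + s))
      - algebraMap k K (η + ((q : k) ^ 2 - 7) / 3 - 1)) < 1 := by
    have h12 := (F (q + s)).2.trans_lt (D.lt_one _)
    have e : W' (i0 + (q + s)) - algebraMap k K (η + ((q : k) ^ 2 - 7) / 3 - 1)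
        = (crit b c 1 (q + s) - algebraMap k K (η + ((q : k) ^ 2 - 7) / 3 + (-2) / 2))
          - (crit b c 1 (q + s) - W' (i0 + (q + s))) := by
      rw [show η + ((q : k) ^ 2 - 7) / 3 + (-2) / 2 = η + ((q : k) ^ 2 - 7) / 3 - 1 by
        rw [neg_div, div_self (two_ne_zero' k)]; ring]
      ring
    rw [e]
    exact P.valuation.map_sub_lt hhalf h12
  exact chain_II hP hc hr h' hT hII hw h11

private theorem main_one [CharZero k] [Algebra.IsAlgebraic ℚ k] [IsAlgClosed k] [IsAlgClosed K]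
    {lam lam' : k} {W W' : ℕ → K}
    (h : WCyc b c n (algebraMap k K lam) W) (h' : WCyc b c m (algebraMap k K lam') W')
    (l0' : lam' ≠ 0) (hM : Mixed k P b c W W' q)
    (hT : P.valuation (TT b c q - algebraMap k K (-2)) < 1) : n = 2 ∧ lam = -3 := by
  have hP := hM.pl
  have hc := hM.ctx
  have hr := hM.rot
  have hz : CharZ P.valuation := hP.charZ
  obtain ⟨τ, β, S, hs, hST⟩ := sym_exists (v := P.valuation) hc hz hr
  have hS : P.valuation (S - algebraMap k K (-2)) < 1 := by
    have e : S - algebraMap k K (-2) = (S - TT b c q) + (TT b c q - algebraMap k K (-2)) := by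
      ring
    rw [e]
    exact P.valuation.map_add_lt hST hT
  obtain ⟨ζ, hζ⟩ := hP.res b hc.vb.le
  obtain ⟨i1, hi1⟩ := hM.I.2.1
  obtain ⟨p, x, hp, hn, hx, x0, x1, xs, xp, -, hlam⟩ := chain_I hP hc hr h hT hM.I hi1
  have xs' : ∀ j, x (j + 1) = x j + (x j)⁻¹ - 2 := fun j => by rw [xs j]; ring
  have hlam1 : lam ≠ 1 := by
    rw [hlam]
    exact (e_exists hp x0 x1 xs' xp).2
  obtain ⟨e, η, ep, es, hA, hη, halt⟩ := real_part hr.two_le hp x0 x1 xs' xp
  have hW : ∀ i, W (i + 1) = (W i + (W i)⁻¹ + (b - 1 - c ^ 2) / c) / b := fun i => h.step' i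
  have hη' : P.valuation (S + 2 - τ ^ 2 * algebraMap k K η) < P.valuation τ ^ 2 := by
    refine L_var (x := x) (e := e) (h := fun j => hfun q (-2) (x j + (x j)⁻¹))
      (g := fun j => (x j ^ 2)⁻¹ + ((q : k) ^ 2 + 2) / 3) (lam := lam)
      (Y := fun j => yc τ (W (i1 + q * j)))
      (M := fun j => (∏ l ∈ range q, (1 - (W (i1 + q * j + l) ^ 2)⁻¹)) * b⁻¹ ^ q
        * ((c * W (i1 + q * j + 0) - 1) / (c * W (i1 + q * j + q) - 1)))
      hP hp hs.t0 hs.vt ?_ x0 x1 xs' xp ep es (fun j => by simp only [xp])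
      (fun j => by simp only [xp]) hlam hlam1 hA hη ?_ ?_ ?_ ?_ ?_
    · have e : S + 2 = S - algebraMap k K (-2) := by
        rw [map_neg, map_ofNat]
        ring
      rw [e]
      exact hS
    · intro j
      have h1 := h.per (i1 + q * j)
      rw [← h1, hn]
      congr 2
      ring
    · intro j
      have h1 : P.valuation (W (i1 + q * j)) ≤ 1 := by
        have e : W (i1 + q * j) = (W (i1 + q * j) - algebraMap k K (x j))
          + algebraMap k K (x j) := by ring
        rw [e]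
        exact P.valuation.map_add_le (hx j).le (cst_le hP _)
      have e : yc τ (W (i1 + q * j)) - algebraMap k K (x j)
          = (yc τ (W (i1 + q * j)) - W (i1 + q * j))
            + (W (i1 + q * j) - algebraMap k K (x j)) := by ring
      rw [e]
      exact P.valuation.map_add_lt (yc_near hs.vt h1) (hx j)
    · intro j
      have h1 := L_exp hP hc hr hs hζ hS (x := fun l => W (i1 + q * j + l)) (w := x j)
        (fun l _ => hW _) (hx j) (x0 j)
      have h2 : i1 + q * (j + 1) = i1 + q * j + q := by ring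
      rw [h2]
      exact h1
    · intro j
      exact L_mul hP hc hr hs hζ hS (x := fun l => W (i1 + q * j + l)) (w := x j)
        (fun l _ => hW _) (hx j) (x0 j)
    · exact prod_M h hn i1
  obtain ⟨σ0⟩ : Nonempty (k →+* ℂ) := ⟨(IsAlgClosed.lift : k →ₐ[ℚ] ℂ).toRingHom⟩
  rcases halt with hgt | ⟨hq2, hx2, hw1⟩
  · exfalso
    have hw : η + ((q : k) ^ 2 - 7) / 3 - 1 ≠ 0 := by
      intro h0
      obtain ⟨r, hr1, hr2⟩ := hgt σ0
      rw [h0, map_zero] at hr2
      have : r = 0 := by exact_mod_cast hr2.symm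
      linarith
    obtain ⟨ℓ, -, hH⟩ := disc_part hP hc hr hs h' l0' hM.II hS hT hζ hη' hw
    exact L_unit hw hH hgt
  · have hp1 : p = 1 := by
      by_contra hne
      refine hlam1 (chain_I_const hP hc hr h hT hM.I (i0 := i1) (w := 1 / 2) hn (by omega) ?_
        (by norm_num))
      intro j
      rw [← hx2 j]
      exact hx j
    refine ⟨by rw [hn, hp1, hq2], ?_⟩
    rw [hlam, hp1, prod_range_one, hx2]
    norm_num

end LgDisc

section Lg

variable {k K : Type*} [Field k] [Field K] [Algebra k K]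
  {P : ValuationSubring K} {b c : K} {n m q : ℕ}

/-- mixed ends with `t = -2 ε` -/
theorem no_mixed_one [CharZero k] [Algebra.IsAlgebraic ℚ k] [IsAlgClosed k] [IsAlgClosed K]
    {lam lam' : k} {W W' : ℕ → K}
    (h : WCyc b c n (algebraMap k K lam) W) (h' : WCyc b c m (algebraMap k K lam') W')
    (l0 : lam ≠ 0) (l0' : lam' ≠ 0) (hM : Mixed k P b c W W' q) {t ε : k}
    (ht : P.valuation (TT b c q - algebraMap k K t) < 1) (hε : ε ^ 2 = 1) (hH : Hits ε t 1) :
    n = 2 ∧ lam = -3 := by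
  obtain ⟨x, hx0, hx1, hx2⟩ := hH
  have h1 := (hx1 0 one_pos).2
  rw [zero_add, hx2, hx0] at h1
  have hε' : ε = 1 ∨ ε = -1 := by
    rw [← one_pow 2] at hε
    exact sq_eq_sq_iff_eq_or_eq_neg.1 hε
  rcases hε' with rfl | rfl
  · have ht2 : t = -2 := by
      rw [inv_one] at h1
      linear_combination -h1
    rw [ht2] at ht
    exact main_one h h' l0' hM ht
  · have ht2 : t = 2 := by
      rw [inv_neg, inv_one] at h1
      linear_combination -h1
    rw [ht2] at ht
    refine main_one (b := b) (c := -c) (W := fun i => -W i) (W' := fun i => -W' i) (q := q)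
      (P := P) h.neg h'.neg l0' ?_ ?_
    · refine ⟨hM.pl, ⟨hM.ctx.vb, ?_, neg_ne_zero.2 hM.ctx.c0, ?_⟩, ⟨hM.rot.two_le, hM.rot.one, ?_⟩,
        ⟨?_, ?_, ?_⟩, ?_⟩
      · rw [Valuation.map_neg]; exact hM.ctx.vc
      · rw [Valuation.map_neg]; exact hM.ctx.hbc
      · rw [Valuation.map_neg]; exact hM.rot.le
      · intro i
        beta_reduce
        rw [Valuation.map_neg]
        exact hM.I.1 i
      · obtain ⟨i, hi⟩ := hM.I.2.1
        exact ⟨i, by rw [Valuation.map_neg]; exact hi⟩
      · intro i hi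
        beta_reduce at hi ⊢
        rw [Valuation.map_neg] at hi
        rw [neg_sq]
        exact hM.I.2.2 i hi
      · obtain ⟨i, hi⟩ := hM.II
        exact ⟨i, by rw [Valuation.map_neg]; exact hi⟩
    · have e : TT b (-c) q - algebraMap k K (-2) = -(TT b c q - algebraMap k K 2) := by
        unfold TT
        rw [map_neg, div_neg]
        ring
      rw [e, Valuation.map_neg]
      exact ht

end Lg

end Pool.Agent.helper56.P3
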